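import Mathlib
import Pool.Agent.W823.CT.Stm

/-! CT-CYC: visits to `o` before covering. -/

set_option autoImplicit false

open MeasureTheory ProbabilityTheory
open scoped ENNReal BigOperators

namespace Pool.Agent.W366.CTCYC

open Pool.Agent.W823.CT Finset

section

variable {V : Type} [Fintype V] [DecidableEq V] {G : SimpleGraph V} [DecidableRel G.Adj]

theorem step_le {f : V → Finset V → ℝ} {c : ℝ} (hdeg : ∀ x, 0 < G.degree x)
    (hf : ∀ x A, f x A ≤ c) (x : V) (A : Finset V) : srwStep G f x A ≤ c := by
  have h0 : (0 : ℝ) < G.degree x := by exact_mod_cast hdeg x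
  unfold srwStep
  rw [div_le_iff₀ h0]
  calc ∑ y ∈ G.neighborFinset x, f y (insert y A) ≤ ∑ _y ∈ G.neighborFinset x, c :=
        sum_le_sum fun y _ => hf _ _
    _ = c * G.degree x := by
        rw [sum_const, nsmul_eq_mul, SimpleGraph.card_neighborFinset_eq_degree, mul_comm]

theorem step_nonneg {f : V → Finset V → ℝ} (hf : ∀ x A, 0 ≤ f x A) (x : V) (A : Finset V) :
    0 ≤ srwStep G f x A := by
  unfold srwStep
  exact div_nonneg (sum_nonneg fun y _ => hf _ _) (Nat.cast_nonneg _)

theorem iter_nonneg {f : V → Finset V → ℝ} (hf : ∀ x A, 0 ≤ f x A) (k : ℕ) (x : V)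
    (A : Finset V) : 0 ≤ (srwStep G)^[k] f x A := by
  induction k generalizing x A with
  | zero => exact hf x A
  | succ k ih =>
    rw [Function.iterate_succ_apply']
    exact step_nonneg ih x A

theorem iter_univ {f : V → Finset V → ℝ} (hf : ∀ x, f x univ = 0) (k : ℕ) (x : V) :
    (srwStep G)^[k] f x univ = 0 := by
  induction k generalizing x with
  | zero => exact hf x
  | succ k ih =>
    rw [Function.iterate_succ_apply']
    unfold srwStep
    rw [Finset.sum_eq_zero, zero_div]
    intro y _
    rw [insert_eq_of_mem (mem_univ y)]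
    exact ih y

theorem step_sum (f : ℕ → V → Finset V → ℝ) (K : ℕ) (x : V) (A : Finset V) :
    srwStep G (fun y B => ∑ k ∈ range K, f k y B) x A = ∑ k ∈ range K, srwStep G (f k) x A := by
  unfold srwStep
  rw [sum_comm, sum_div]

theorem sum_succ (f : V → Finset V → ℝ) (K : ℕ) (x : V) (A : Finset V) :
    ∑ k ∈ range (K + 1), (srwStep G)^[k] f x A =
      f x A + srwStep G (fun y B => ∑ k ∈ range K, (srwStep G)^[k] f y B) x A := by
  rw [sum_range_succ', step_sum, add_comm]
  congr 1
  refine sum_congr rfl fun k _ => ?_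
  rw [Function.iterate_succ_apply']

end

/-- the auxiliary function -/
noncomputable def HH {V : Type} [Fintype V] [DecidableEq V] (G : SimpleGraph V)
    [DecidableRel G.Adj] (h : V → ℝ) : ℕ → V → Finset V → ℝ
  | 0, x, _ => h x
  | K + 1, x, A => if A = univ then h x else srwStep G (HH G h K) x A

theorem main (h1 : S_GRI) (h2 : S_HITB) : S_CYC := by
  intro V _ _ G _ o a hG hcard hgr
  obtain ⟨-, -, h3⟩ := h1 V G o a hgr
  have hnt : Nontrivial V := Fintype.one_lt_card_iff_nontrivial.mp (by omega)
  have hdeg : ∀ x, 0 < G.degree x := fun x => hG.preconnected.degree_pos_of_nontrivial x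
  have hdegR : ∀ x, (0 : ℝ) < G.degree x := fun x => by exact_mod_cast hdeg x
  set m : ℝ := (G.edgeFinset.card : ℝ) with hm
  have hsum : ∑ w, (G.degree w : ℝ) = 2 * m := by
    have := G.sum_degrees_eq_twice_card_edges
    rw [hm]
    exact_mod_cast this
  have hm0 : 0 < m := by
    have h4 : 0 < ∑ w, (G.degree w : ℝ) := sum_pos (fun w _ => hdegR w) ⟨o, mem_univ o⟩
    rw [hsum] at h4
    linarith
  set h : V → ℝ := fun z => ∑ w, (G.degree w : ℝ) * dotp (a z) (a w) with hh
  have ho : h o = 0 := by
    simp only [hh]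
    refine sum_eq_zero fun w _ => ?_
    have : dotp (a o) (a w) = 0 := by
      unfold dotp
      exact sum_eq_zero fun i _ => by rw [hgr.1 i, zero_mul]
    rw [this, mul_zero]
  have hlap : ∀ x, (G.degree x : ℝ) * h x - ∑ z ∈ G.neighborFinset x, h z =
      G.degree x - 2 * m * (if x = o then 1 else 0) := by
    intro x
    have e1 : (G.degree x : ℝ) * h x - ∑ z ∈ G.neighborFinset x, h z =
        ∑ w, (G.degree w : ℝ) * ((G.degree x : ℝ) * dotp (a x) (a w) -
          ∑ z ∈ G.neighborFinset x, dotp (a z) (a w)) := by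
      simp only [hh, mul_sub, sum_sub_distrib, mul_sum]
      congr 1
      · exact sum_congr rfl fun w _ => by ring
      · rw [sum_comm]
    rw [e1]
    simp only [h3, mul_sub, sum_sub_distrib, ← sum_mul, hsum]
    congr 1
    rw [sum_eq_single x]
    · simp
    · intro w _ hw
      rw [if_neg (fun hc => hw hc.symm), mul_zero]
    · intro hc
      exact absurd (mem_univ x) hc
  have havg : ∀ x, (∑ z ∈ G.neighborFinset x, h z) / (G.degree x : ℝ) =
      h x - 1 + 2 * m / G.degree o * (if x = o then 1 else 0) := by
    intro x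
    have h4 := hlap x
    rw [div_eq_iff (hdegR x).ne']
    by_cases hx : x = o
    · subst hx
      rw [if_pos rfl] at h4 ⊢
      have h5 := (hdegR x).ne'
      field_simp
      linarith
    · rw [if_neg hx] at h4 ⊢
      linarith
  have hhit : ∀ x, ENNReal.ofReal (h x) ≤ Tsrw G := by
    refine h2 V G h o hG ho fun x hx => ?_
    have h4 := hlap x
    rw [if_neg hx] at h4
    linarith
  set φ : V → Finset V → ℝ := fun x A => if x = o then nc A else 0 with hφ
  have hnc0 : ∀ A : Finset V, 0 ≤ nc A := fun A => by
    unfold nc; split_ifs <;> norm_num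
  have hφ0 : ∀ x A, 0 ≤ φ x A := fun x A => by
    simp only [hφ]; split_ifs
    · exact hnc0 A
    · exact le_rfl
  have hφu : ∀ x, φ x univ = 0 := fun x => by
    simp only [hφ, nc, if_true]; split_ifs <;> rfl
  have hcu : ∀ _x : V, (nc (univ : Finset V)) = 0 := fun _ => by simp [nc]
  by_cases hT : Tsrw G = ⊤
  · rw [hT, ENNReal.mul_top]
    · exact le_top
    · rw [Ne, ENNReal.ofReal_eq_zero, not_le]
      exact div_pos (hdegR o) hm0
  set t := (Tsrw G).toReal with ht
  have hTt : Tsrw G = ENNReal.ofReal t := (ENNReal.ofReal_toReal hT).symm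
  have ht0 : 0 ≤ t := ENNReal.toReal_nonneg
  have hht : ∀ x, h x ≤ t := fun x => by
    have := hhit x
    rw [hTt] at this
    exact (ENNReal.ofReal_le_ofReal_iff ht0).mp this
  -- the identity
  have hid : ∀ K x A, 2 * m / G.degree o * ∑ k ∈ range K, (srwStep G)^[k] φ x A + h x =
      HH G h K x A + ∑ k ∈ range K, (srwStep G)^[k] (fun _ A => nc A) x A := by
    intro K
    induction K with
    | zero => intro x A; simp [HH]
    | succ K ih =>
      intro x A
      by_cases hA : A = univ
      · subst hA
        rw [sum_eq_zero (fun k _ => iter_univ hφu k x), sum_eq_zero (fun k _ =>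
          iter_univ (f := fun _ A => nc A) hcu k x)]
        simp [HH]
      · rw [sum_succ, sum_succ]
        have hncA : nc A = 1 := by unfold nc; rw [if_neg hA]
        have hHA : HH G h (K + 1) x A = srwStep G (HH G h K) x A := by
          show (if A = univ then h x else srwStep G (HH G h K) x A) = _
          rw [if_neg hA]
        have h5 : 2 * m / G.degree o *
            srwStep G (fun y B => ∑ k ∈ range K, (srwStep G)^[k] φ y B) x A +
            (∑ z ∈ G.neighborFinset x, h z) / (G.degree x : ℝ) =
            srwStep G (HH G h K) x A +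
            srwStep G (fun y B => ∑ k ∈ range K, (srwStep G)^[k] (fun _ A => nc A) y B) x A := by
          unfold srwStep
          rw [← mul_div_assoc, ← add_div, ← add_div, mul_sum, ← sum_add_distrib,
            ← sum_add_distrib]
          congr 1
          exact sum_congr rfl fun y _ => ih y (insert y A)
        rw [havg] at h5
        rw [hHA, hncA]
        have h6 : φ x A = if x = o then 1 else 0 := by simp only [hφ, hncA]
        rw [h6]
        linarith
  have hHt : ∀ K x A, HH G h K x A ≤ t := by
    intro K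
    induction K with
    | zero => intro x A; exact hht x
    | succ K ih =>
      intro x A
      show (if A = univ then h x else srwStep G (HH G h K) x A) ≤ t
      split_ifs
      · exact hht x
      · exact step_le hdeg ih x A
  refine ENNReal.tsum_le_of_sum_range_le fun K => ?_
  rw [← ENNReal.ofReal_sum_of_nonneg (fun k _ => iter_nonneg hφ0 k o {o}), hTt,
    ← ENNReal.ofReal_mul (div_nonneg (hdegR o).le hm0.le)]
  apply ENNReal.ofReal_le_ofReal
  have hS : ∑ k ∈ range K, (srwStep G)^[k] (fun _ A => nc A) o {o} ≤ t := by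
    rw [← ENNReal.ofReal_le_ofReal_iff ht0, ← hTt,
      ENNReal.ofReal_sum_of_nonneg (fun k _ => iter_nonneg (fun _ A => hnc0 A) k o {o})]
    refine (ENNReal.sum_le_tsum _).trans ?_
    exact le_iSup (fun x : V => ∑' k : ℕ, ENNReal.ofReal ((srwStep G)^[k] (fun _ A => nc A) x {x})) o
  have h7 := hid K o {o}
  rw [ho, add_zero] at h7
  have h8 := hHt K o {o}
  have h9 : 2 * m / G.degree o * ∑ k ∈ range K, (srwStep G)^[k] φ o {o} ≤ 2 * t := by linarith
  rw [div_mul_eq_mul_div, div_le_iff₀ (hdegR o)] at h9
  rw [div_mul_eq_mul_div, le_div_iff₀ hm0]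
  linarith

end Pool.Agent.W366.CTCYC
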